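import Pool.Agent.helper94.EU.SpecII

set_option autoImplicit false

open Finset

namespace Pool.Agent.EU

open Pool.Agent.FI Pool.Agent.FJ

theorem TNQ_nn (ρ w : ℝ) : 0 ≤ tnt ρ w := le_max_left _ _

theorem TNQ_zero {ρ w : ℝ} (hρ : 0 < ρ) (h : ρ ≤ |w|) : tnt ρ w = 0 := by
  unfold tnt
  refine max_eq_left ?_
  have : 1 ≤ |w| / ρ := by rw [le_div_iff₀ hρ, one_mul]; exact h
  linarith

theorem TNQ_val {ρ w : ℝ} (hρ : 0 < ρ) (h : |w| ≤ ρ) : tnt ρ w = 1 - |w| / ρ := by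
  unfold tnt
  refine max_eq_right ?_
  have : |w| / ρ ≤ 1 := by rw [div_le_iff₀ hρ, one_mul]; exact h
  linarith

theorem TNQ_pair {ρ : ℝ} (hρ : 0 < ρ) (v : ℝ) (j : ℤ) (h1 : j * ρ ≤ v) (h2 : v ≤ (j + 1) * ρ) :
    tnt ρ (v - j * ρ) + tnt ρ (v - ((j + 1 : ℤ) : ℝ) * ρ) = 1 := by
  have h3 : |v - j * ρ| = v - j * ρ := abs_of_nonneg (by linarith)
  have h4 : |v - ((j + 1 : ℤ) : ℝ) * ρ| = ((j + 1 : ℤ) : ℝ) * ρ - v := by
    rw [abs_of_nonpos (by push_cast; linarith)]; ring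
  rw [TNQ_val hρ (by rw [h3]; linarith), TNQ_val hρ (by rw [h4]; push_cast; linarith), h3, h4]
  push_cast
  field_simp
  ring

theorem TNQ_out {ρ : ℝ} (hρ : 0 < ρ) (v : ℝ) (j : ℤ) (h1 : j * ρ ≤ v) (h2 : v ≤ (j + 1) * ρ) (i : ℤ)
    (hi : i ∉ ({j, j + 1} : Finset ℤ)) : tnt ρ (v - i * ρ) = 0 := by
  refine TNQ_zero hρ ?_
  rw [mem_insert, mem_singleton, not_or] at hi
  rcases lt_or_ge i j with h | h
  · have h3 : (i : ℝ) ≤ j - 1 := by exact_mod_cast (by omega : i ≤ j - 1)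
    have h4 : (i : ℝ) * ρ ≤ (j - 1) * ρ := mul_le_mul_of_nonneg_right h3 hρ.le
    rw [abs_of_nonneg (by linarith)]
    linarith
  · have h3 : (j : ℝ) + 2 ≤ i := by exact_mod_cast (by omega : j + 2 ≤ i)
    have h4 : ((j : ℝ) + 2) * ρ ≤ i * ρ := mul_le_mul_of_nonneg_right h3 hρ.le
    rw [abs_of_nonpos (by linarith)]
    linarith

theorem TNQ_fl {ρ : ℝ} (hρ : 0 < ρ) (v : ℝ) : (⌊v / ρ⌋ : ℝ) * ρ ≤ v ∧ v ≤ ((⌊v / ρ⌋ : ℝ) + 1) * ρ := by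
  constructor
  · have := Int.floor_le (v / ρ)
    rwa [le_div_iff₀ hρ] at this
  · have := (Int.lt_floor_add_one (v / ρ)).le
    rwa [div_le_iff₀ hρ] at this

theorem TNQ_two {ρ : ℝ} (hρ : 0 < ρ) (v : ℝ) :
    ∑ i ∈ ({⌊v / ρ⌋, ⌊v / ρ⌋ + 1} : Finset ℤ), tnt ρ (v - i * ρ) = 1 := by
  rw [sum_pair (by omega)]
  exact TNQ_pair hρ v _ (TNQ_fl hρ v).1 (TNQ_fl hρ v).2

theorem TNQ_le {ρ : ℝ} (hρ : 0 < ρ) (v : ℝ) (S : Finset ℤ) : ∑ i ∈ S, tnt ρ (v - i * ρ) ≤ 1 := by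
  rw [← TNQ_two hρ v]
  calc ∑ i ∈ S, tnt ρ (v - i * ρ) ≤ ∑ i ∈ S ∪ {⌊v / ρ⌋, ⌊v / ρ⌋ + 1}, tnt ρ (v - i * ρ) :=
        sum_le_sum_of_subset_of_nonneg subset_union_left fun i _ _ => TNQ_nn _ _
    _ = ∑ i ∈ ({⌊v / ρ⌋, ⌊v / ρ⌋ + 1} : Finset ℤ), tnt ρ (v - i * ρ) := by
        symm
        refine sum_subset subset_union_right fun i _ hi => ?_
        exact TNQ_out hρ v _ (TNQ_fl hρ v).1 (TNQ_fl hρ v).2 i hi

theorem TNQ_eq {ρ : ℝ} (hρ : 0 < ρ) (v : ℝ) (S : Finset ℤ) (h : ({⌊v / ρ⌋, ⌊v / ρ⌋ + 1} : Finset ℤ) ⊆ S) :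
    ∑ i ∈ S, tnt ρ (v - i * ρ) = 1 := by
  rw [← TNQ_two hρ v]
  symm
  refine sum_subset h fun i _ hi => ?_
  exact TNQ_out hρ v _ (TNQ_fl hρ v).1 (TNQ_fl hρ v).2 i hi

theorem TNQ : TNQ_stmt := by
  intro ρ a b hρ
  refine ⟨fun v => ⟨?_, ?_⟩, fun v hv => ?_, fun v h1 h2 => ?_, ?_⟩
  · exact sum_nonneg fun i _ => TNQ_nn _ _
  · exact TNQ_le hρ v _
  · refine sum_eq_zero fun i hi => TNQ_zero hρ ?_
    rw [mem_Icc] at hi
    rcases hv with hv | hv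
    · have h3 : a / ρ + 1 ≤ i := by
        have h4 : ((⌈a / ρ⌉ + 1 : ℤ) : ℝ) ≤ i := by exact_mod_cast hi.1
        push_cast at h4
        linarith [Int.le_ceil (a / ρ)]
      have h5 : a + ρ ≤ i * ρ := by
        have := mul_le_mul_of_nonneg_right h3 hρ.le
        rwa [add_mul, div_mul_cancel₀ _ hρ.ne', one_mul] at this
      rw [abs_of_nonpos (by linarith)]
      linarith
    · have h3 : (i : ℝ) ≤ b / ρ - 1 := by
        have h4 : (i : ℝ) ≤ ((⌊b / ρ⌋ - 1 : ℤ) : ℝ) := by exact_mod_cast hi.2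
        push_cast at h4
        linarith [Int.floor_le (b / ρ)]
      have h5 : i * ρ ≤ b - ρ := by
        have := mul_le_mul_of_nonneg_right h3 hρ.le
        rwa [sub_mul, div_mul_cancel₀ _ hρ.ne', one_mul] at this
      rw [abs_of_nonneg (by linarith)]
      linarith
  · refine TNQ_eq hρ v _ ?_
    have h3 : a / ρ + 3 ≤ v / ρ := by
      rw [le_div_iff₀ hρ, add_mul, div_mul_cancel₀ _ hρ.ne']; exact h1
    have h4 : v / ρ ≤ b / ρ - 3 := by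
      rw [div_le_iff₀ hρ, sub_mul, div_mul_cancel₀ _ hρ.ne']; exact h2
    have h5 := Int.floor_le (v / ρ)
    have h6 := Int.lt_floor_add_one (v / ρ)
    have h7 := Int.ceil_lt_add_one (a / ρ)
    have h8 := Int.lt_floor_add_one (b / ρ)
    have h9 : ⌈a / ρ⌉ + 1 ≤ ⌊v / ρ⌋ := by
      have : ((⌈a / ρ⌉ + 1 : ℤ) : ℝ) ≤ ⌊v / ρ⌋ := by push_cast; linarith
      exact_mod_cast this
    have h10 : ⌊v / ρ⌋ + 1 ≤ ⌊b / ρ⌋ - 1 := by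
      have : ((⌊v / ρ⌋ + 1 : ℤ) : ℝ) ≤ ((⌊b / ρ⌋ - 1 : ℤ) : ℝ) := by push_cast; linarith
      exact_mod_cast this
    intro i hi
    rw [mem_insert, mem_singleton] at hi
    rw [mem_Icc]
    omega
  · rw [Int.card_Icc]
    have h1 : 0 ≤ |b - a| / ρ := div_nonneg (abs_nonneg _) hρ.le
    rcases le_or_gt (⌊b / ρ⌋ - 1 + 1 - (⌈a / ρ⌉ + 1)) 0 with h | h
    · rw [Int.toNat_of_nonpos h]
      simpa using h1
    · have h2 : (((⌊b / ρ⌋ - 1 + 1 - (⌈a / ρ⌉ + 1)).toNat : ℕ) : ℝ) = ((⌊b / ρ⌋ - 1 + 1 - (⌈a / ρ⌉ + 1) : ℤ) : ℝ) := by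
        exact_mod_cast congrArg (Int.cast (R := ℝ)) (Int.toNat_of_nonneg h.le)
      rw [h2]
      push_cast
      have h3 := Int.floor_le (b / ρ)
      have h4 := Int.le_ceil (a / ρ)
      have h5 : b / ρ - a / ρ ≤ |b - a| / ρ := by
        rw [← sub_div]
        exact div_le_div_of_nonneg_right (le_abs_self _) hρ.le
      linarith

end Pool.Agent.EU
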