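import Pool.Agent.helper52.EU.SpecW

set_option autoImplicit false

open Finset

namespace Pool.Agent.EU

open Pool.Agent.FI Pool.Agent.HK Pool.Agent.BP
open Pool.Agent.CH (nit)

theorem WBC_int (B : Finset ℤ) (lo hi : ℝ) (h : ∀ n ∈ B, lo ≤ n ∧ (n : ℝ) ≤ hi) (hle : 0 ≤ hi - lo) :
    (B.card : ℝ) ≤ hi - lo + 1 := by
  have h1 : B ⊆ Icc ⌈lo⌉ ⌊hi⌋ := by
    intro n hn
    rw [mem_Icc]
    exact ⟨Int.ceil_le.2 (h n hn).1, Int.le_floor.2 (h n hn).2⟩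
  have h2 : (B.card : ℝ) ≤ ((Icc ⌈lo⌉ ⌊hi⌋).card : ℝ) := by exact_mod_cast card_le_card h1
  refine h2.trans ?_
  rw [Int.card_Icc]
  rcases le_or_gt (⌊hi⌋ + 1 - ⌈lo⌉) 0 with h3 | h3
  · rw [Int.toNat_of_nonpos h3]
    push_cast
    linarith
  · have h4 : (((⌊hi⌋ + 1 - ⌈lo⌉).toNat : ℕ) : ℝ) = ((⌊hi⌋ + 1 - ⌈lo⌉ : ℤ) : ℝ) := by
      exact_mod_cast congrArg (Int.cast (R := ℝ)) (Int.toNat_of_nonneg h3.le)
    rw [h4]
    push_cast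
    linarith [Int.floor_le hi, Int.le_ceil lo]

theorem WBC_one (n₁ k : ℕ) (τ τ' θ : ℝ) (hn : 1 ≤ n₁) (h0 : 0 ≤ τ) (h1 : τ ≤ τ') (h2 : 0 < θ) (h3 : θ ≤ 1 / 8)
    (h4 : τ' - τ ≤ θ * n₁) (hk : 1 ≤ k) (B : Finset ℤ)
    (hB : ∀ n ∈ B, (n₁ : ℤ) < n ∧ n ≤ 4 * (n₁ : ℤ) ∧ τ < (k + θ) * n ∧ (k - θ) * n < τ') :
    (B.card : ℝ) ≤ 162 * (θ * n₁) / (τ' / n₁ + 1 / 8) + 1 := by
  have hn0 : (1 : ℝ) ≤ n₁ := by exact_mod_cast hn
  have hk0 : (1 : ℝ) ≤ k := by exact_mod_cast hk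
  have hT : 0 ≤ τ' / n₁ := div_nonneg (h0.trans h1) (by linarith)
  rcases B.eq_empty_or_nonempty with rfl | ⟨m, hm⟩
  · rw [card_empty, Nat.cast_zero]
    positivity
  · obtain ⟨hm1, hm2, hm3, hm4⟩ := hB m hm
    have hm2' : (m : ℝ) ≤ 4 * n₁ := by exact_mod_cast hm2
    have h5 : τ' ≤ 8 * (k * n₁) := by
      have h6 : (k + θ) * m ≤ (k + θ) * (4 * n₁) := mul_le_mul_of_nonneg_left hm2' (by linarith)
      have h7 : θ * n₁ ≤ 1 / 8 * n₁ := mul_le_mul_of_nonneg_right h3 (by linarith)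
      have h8 : (n₁ : ℝ) ≤ k * n₁ := by nlinarith
      nlinarith
    have hkt : 0 < (k : ℝ) - θ := by linarith
    have hkt' : 0 < (k : ℝ) + θ := by linarith
    have h6 : τ' / (k - θ) - τ / (k + θ) ≤ 18 * (θ * n₁) / k := by
      rw [div_sub_div _ _ hkt.ne' hkt'.ne', div_le_div_iff₀ (mul_pos hkt hkt') (by linarith)]
      have h7 : τ' * (k + θ) - (k - θ) * τ ≤ 17 * (k * (θ * n₁)) := by
        have h8 : k * (τ' - τ) ≤ k * (θ * n₁) := mul_le_mul_of_nonneg_left h4 (by linarith)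
        have h9 : θ * (τ' + τ) ≤ θ * (16 * (k * n₁)) := mul_le_mul_of_nonneg_left (by linarith) h2.le
        nlinarith
      have h10 : 63 / 64 * (k : ℝ) ^ 2 ≤ (k - θ) * (k + θ) := by nlinarith
      have h11 : 0 ≤ θ * n₁ := by positivity
      calc (τ' * (k + θ) - (k - θ) * τ) * k ≤ 17 * (k * (θ * n₁)) * k := mul_le_mul_of_nonneg_right h7 (by linarith)
        _ ≤ 18 * (θ * n₁) * (63 / 64 * (k : ℝ) ^ 2) := by nlinarith [mul_nonneg h11 (sq_nonneg (k : ℝ))]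
        _ ≤ 18 * (θ * n₁) * ((k - θ) * (k + θ)) := mul_le_mul_of_nonneg_left h10 (by linarith)
    have h7 : 0 ≤ τ' / (k - θ) - τ / (k + θ) := by
      have h8 : τ / (k + θ) ≤ τ' / (k - θ) := by
        rw [div_le_div_iff₀ hkt' hkt]
        nlinarith
      linarith
    have h8 := WBC_int B (τ / (k + θ)) (τ' / (k - θ)) (by
      intro n hn
      obtain ⟨-, -, h9, h10⟩ := hB n hn
      constructor
      · rw [div_le_iff₀ hkt']; linarith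
      · rw [le_div_iff₀ hkt]; linarith) h7
    have h9 : τ' / n₁ ≤ 8 * k := by
      rw [div_le_iff₀ (by linarith)]; linarith
    have h10 : 18 * (θ * n₁) / k ≤ 162 * (θ * n₁) / (τ' / n₁ + 1 / 8) := by
      rw [div_le_div_iff₀ (by linarith) (by linarith)]
      have h11 : 0 ≤ θ * n₁ := by positivity
      have h12 : τ' / n₁ + 1 / 8 ≤ 9 * k := by linarith
      nlinarith [mul_le_mul_of_nonneg_left h12 h11]
    linarith

theorem WBC : WBC_stmt := by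
  refine ⟨162, by norm_num, ?_⟩
  intro n₁ τ τ' θ hn h0 h1 h2 h3 h4
  classical
  have hn0 : (1 : ℝ) ≤ n₁ := by exact_mod_cast hn
  have hT : 0 ≤ τ' / n₁ := div_nonneg (h0.trans h1) (by linarith)
  set R : ℕ := ⌊τ' / n₁ + 1 / 8⌋₊ with hR
  set Bk : ℕ → Finset ℤ := fun k => (Ioc (n₁ : ℤ) (4 * (n₁ : ℤ))).filter fun n : ℤ => τ < (k + θ) * n ∧ (k - θ) * n < τ' with hBk
  have hsub : ((Ioc (n₁ : ℤ) (4 * (n₁ : ℤ))).filter fun n : ℤ => (1 / 2 : ℝ) < τ' / (n : ℝ) ∧ ¬ ∃ k : ℕ, (k : ℝ) + θ ≤ τ / (n : ℝ) ∧ τ' / (n : ℝ) ≤ (k : ℝ) + 1 - θ)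
      ⊆ (Icc 1 R).biUnion Bk := by
    intro n hn'
    rw [mem_filter, mem_Ioc] at hn'
    obtain ⟨⟨ha, hb⟩, hc, hd⟩ := hn'
    have ha' : (n₁ : ℝ) < n := by exact_mod_cast ha
    have hnpos : (0 : ℝ) < n := by linarith
    have hτn : 0 ≤ τ / n := div_nonneg h0 hnpos.le
    have hfl := Nat.floor_le hτn
    have hfl' := Nat.lt_floor_add_one (τ / n)
    have hdiff : τ' / n ≤ τ / n + θ := by
      have : (τ' - τ) / n ≤ θ := by
        rw [div_le_iff₀ hnpos]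
        nlinarith
      rw [sub_div] at this
      linarith
    have hmono : τ / n ≤ τ' / n := div_le_div_of_nonneg_right h1 hnpos.le
    obtain ⟨k, hk1, hk2, hk3⟩ : ∃ k : ℕ, 1 ≤ k ∧ τ / n < k + θ ∧ (k : ℝ) - θ < τ' / n := by
      by_cases hcase : τ / n < ⌊τ / n⌋₊ + θ
      · refine ⟨⌊τ / n⌋₊, ?_, hcase, by linarith⟩
        by_contra hlt
        have hz : ⌊τ / n⌋₊ = 0 := by omega
        rw [hz, Nat.cast_zero, zero_add] at hcase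
        linarith
      · refine ⟨⌊τ / n⌋₊ + 1, by omega, by push_cast; linarith, ?_⟩
        push_cast
        by_contra hcon
        exact hd ⟨⌊τ / n⌋₊, not_lt.1 hcase, by linarith⟩
    rw [mem_biUnion]
    refine ⟨k, ?_, ?_⟩
    · rw [mem_Icc]
      refine ⟨hk1, Nat.le_floor ?_⟩
      have : τ' / n ≤ τ' / n₁ := div_le_div_of_nonneg_left (h0.trans h1) (by linarith) ha'.le
      linarith
    · rw [hBk, mem_filter, mem_Ioc]
      refine ⟨⟨ha, hb⟩, ?_, ?_⟩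
      · rwa [div_lt_iff₀ hnpos] at hk2
      · rwa [lt_div_iff₀ hnpos] at hk3
  have hcard : ((((Icc 1 R).biUnion Bk).card : ℕ) : ℝ) ≤ R * (162 * (θ * n₁) / (τ' / n₁ + 1 / 8) + 1) := by
    calc ((((Icc 1 R).biUnion Bk).card : ℕ) : ℝ) ≤ ((∑ k ∈ Icc 1 R, (Bk k).card : ℕ) : ℝ) := by exact_mod_cast card_biUnion_le
      _ = ∑ k ∈ Icc 1 R, ((Bk k).card : ℝ) := by push_cast; rfl
      _ ≤ ∑ k ∈ Icc 1 R, (162 * (θ * n₁) / (τ' / n₁ + 1 / 8) + 1) := by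
          refine sum_le_sum fun k hk => ?_
          rw [mem_Icc] at hk
          refine WBC_one n₁ k τ τ' θ hn h0 h1 h2 h3 h4 hk.1 (Bk k) fun n hn' => ?_
          rw [hBk, mem_filter, mem_Ioc] at hn'
          exact ⟨hn'.1.1, hn'.1.2, hn'.2.1, hn'.2.2⟩
      _ = R * (162 * (θ * n₁) / (τ' / n₁ + 1 / 8) + 1) := by
          rw [sum_const, Nat.card_Icc, nsmul_eq_mul, Nat.add_sub_cancel]
  have hRle : (R : ℝ) ≤ τ' / n₁ + 1 / 8 := Nat.floor_le (by linarith)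
  have hpos : 0 < τ' / n₁ + 1 / 8 := by linarith
  have hfin : (R : ℝ) * (162 * (θ * n₁) / (τ' / n₁ + 1 / 8) + 1) ≤ 162 * (θ * n₁) + (τ' / n₁ + 1 / 8) := by
    calc (R : ℝ) * (162 * (θ * n₁) / (τ' / n₁ + 1 / 8) + 1)
        ≤ (τ' / n₁ + 1 / 8) * (162 * (θ * n₁) / (τ' / n₁ + 1 / 8) + 1) := by
          refine mul_le_mul_of_nonneg_right hRle ?_
          have : 0 ≤ θ * n₁ := by positivity
          positivity
      _ = 162 * (θ * n₁) + (τ' / n₁ + 1 / 8) := by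
          rw [mul_add, mul_one, mul_div_cancel₀ _ hpos.ne']
  have hle := card_le_card hsub
  have hle' : ((((Ioc (n₁ : ℤ) (4 * (n₁ : ℤ))).filter fun n : ℤ => (1 / 2 : ℝ) < τ' / (n : ℝ) ∧ ¬ ∃ k : ℕ, (k : ℝ) + θ ≤ τ / (n : ℝ) ∧ τ' / (n : ℝ) ≤ (k : ℝ) + 1 - θ).card : ℕ) : ℝ)
      ≤ (((Icc 1 R).biUnion Bk).card : ℕ) := by exact_mod_cast hle
  have hgoal : ((((Ioc (n₁ : ℤ) (4 * (n₁ : ℤ))).filter fun n : ℤ => (1 / 2 : ℝ) < τ' / (n : ℝ) ∧ ¬ ∃ k : ℕ, (k : ℝ) + θ ≤ τ / (n : ℝ) ∧ τ' / (n : ℝ) ≤ (k : ℝ) + 1 - θ).card : ℕ) : ℝ)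
      ≤ 162 * (θ * n₁ + τ' / n₁ + 1) := by
    refine (hle'.trans (hcard.trans hfin)).trans ?_
    have : 0 ≤ θ * n₁ := by positivity
    linarith
  refine le_trans (le_of_eq ?_) hgoal
  congr 3

end Pool.Agent.EU
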