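import Pool.Agent.helper52.EU.SpecW

set_option autoImplicit false

open Finset

namespace Pool.Agent.EU

open Pool.Agent.FI Pool.Agent.HK Pool.Agent.BP
open Pool.Agent.CH (nit)

theorem WLT_nit (t v : ℝ) : ‖nit t v‖ = 1 := by
  unfold Pool.Agent.CH.nit
  exact Complex.norm_exp_ofReal_mul_I _

theorem WLT_cosh : Real.cosh lep = 3 := by
  have h8 : √(8 : ℝ) * √8 = 8 := Real.mul_self_sqrt (by norm_num)
  have h0 : 0 ≤ √(8 : ℝ) := Real.sqrt_nonneg _
  have h1 : (0 : ℝ) < 3 + √8 := by linarith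
  rw [Real.cosh_eq, lep, Real.exp_neg, Real.exp_log h1]
  field_simp
  nlinarith

theorem WLT_cosh_le {u : ℝ} (h1 : -lep ≤ u) (h2 : u ≤ lep) : Real.cosh u ≤ 3 := by
  rw [← WLT_cosh, Real.cosh_le_cosh]
  refine (abs_le.2 ⟨h1, h2⟩).trans (le_abs_self _)

theorem WLT_abs_sinh {u : ℝ} (h1 : -lep ≤ u) (h2 : u ≤ lep) : |Real.sinh u| ≤ 3 := by
  refine le_trans ?_ (WLT_cosh_le h1 h2)
  refine abs_le_of_sq_le_sq ?_ (Real.cosh_pos u).le
  nlinarith [Real.cosh_sq u]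

theorem WLT_diff {y h : ℝ} (h1 : -lep ≤ y) (h2 : 0 ≤ h) (h3 : y + h ≤ lep) : Real.sinh (y + h) - Real.sinh y ≤ 3 * h := by
  have h4 := Convex.image_sub_le_mul_sub_of_deriv_le (D := Set.Icc y (y + h)) (convex_Icc _ _) (f := Real.sinh)
    Real.continuous_sinh.continuousOn Real.differentiable_sinh.differentiableOn (C := 3) (by
      intro u hu
      rw [interior_Icc] at hu
      rw [Real.deriv_sinh]
      exact WLT_cosh_le (by linarith [hu.1]) (by linarith [hu.2])) y (Set.left_mem_Icc.2 (by linarith)) (y + h)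
      (Set.right_mem_Icc.2 (by linarith)) (by linarith)
  linarith

theorem WLT_lohi {y h ε : ℝ} (h1 : -lep ≤ y) (h2 : 0 ≤ h) (h3 : y + h ≤ lep) (h4 : 0 ≤ y ∨ y + h ≤ 0)
    (h5 : ∀ u : ℝ, y ≤ u → u ≤ y + h → ε ≤ |Real.sinh u|) :
    ∃ lo hi : ℝ, (∀ u : ℝ, y ≤ u → u ≤ y + h → lo ≤ |Real.sinh u| ∧ |Real.sinh u| ≤ hi) ∧ ε ≤ lo ∧ lo ≤ hi ∧
      hi - lo ≤ 3 * h ∧ hi ≤ 3 := by
  rcases h4 with h4 | h4
  · refine ⟨|Real.sinh y|, |Real.sinh (y + h)|, fun u hu1 hu2 => ?_, h5 y le_rfl (by linarith), ?_, ?_, WLT_abs_sinh (by linarith) h3⟩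
    · rw [abs_of_nonneg (Real.sinh_nonneg_iff.2 h4), abs_of_nonneg (Real.sinh_nonneg_iff.2 (h4.trans hu1)),
        abs_of_nonneg (Real.sinh_nonneg_iff.2 (by linarith : 0 ≤ y + h))]
      exact ⟨Real.sinh_le_sinh.2 hu1, Real.sinh_le_sinh.2 hu2⟩
    · rw [abs_of_nonneg (Real.sinh_nonneg_iff.2 h4), abs_of_nonneg (Real.sinh_nonneg_iff.2 (by linarith : 0 ≤ y + h))]
      exact Real.sinh_le_sinh.2 (by linarith)
    · rw [abs_of_nonneg (Real.sinh_nonneg_iff.2 h4), abs_of_nonneg (Real.sinh_nonneg_iff.2 (by linarith : 0 ≤ y + h))]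
      exact WLT_diff h1 h2 h3
  · refine ⟨|Real.sinh (y + h)|, |Real.sinh y|, fun u hu1 hu2 => ?_, h5 (y + h) (by linarith) le_rfl, ?_, ?_, WLT_abs_sinh h1 (by linarith)⟩
    · rw [abs_of_nonpos (Real.sinh_nonpos_iff.2 h4), abs_of_nonpos (Real.sinh_nonpos_iff.2 (hu2.trans h4)),
        abs_of_nonpos (Real.sinh_nonpos_iff.2 (by linarith : y ≤ 0))]
      exact ⟨neg_le_neg (Real.sinh_le_sinh.2 hu2), neg_le_neg (Real.sinh_le_sinh.2 hu1)⟩
    · rw [abs_of_nonpos (Real.sinh_nonpos_iff.2 h4), abs_of_nonpos (Real.sinh_nonpos_iff.2 (by linarith : y ≤ 0))]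
      exact neg_le_neg (Real.sinh_le_sinh.2 (by linarith))
    · rw [abs_of_nonpos (Real.sinh_nonpos_iff.2 h4), abs_of_nonpos (Real.sinh_nonpos_iff.2 (by linarith : y ≤ 0))]
      have := WLT_diff h1 h2 h3
      linarith

theorem WLT_ab {sg : ℤ} (hsg : sg = 1 ∨ sg = -1) : 1 ≤ ra sg ∧ ra sg ≤ 8 ∧ 0 < rb sg ∧ rb sg ≤ ra sg / 2 ∧ 1 ≤ 3 * rb sg := by
  have h8 : √(8 : ℝ) * √8 = 8 := Real.mul_self_sqrt (by norm_num)
  have h0 : 0 ≤ √(8 : ℝ) := Real.sqrt_nonneg _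
  have h2 : 2 ≤ √(8 : ℝ) := by nlinarith
  have h3 : √(8 : ℝ) ≤ 3 := by nlinarith
  rcases hsg with rfl | rfl
  · simp only [ra, rb, if_true]
    refine ⟨le_rfl, by norm_num, by positivity, ?_, ?_⟩
    · rw [div_le_div_iff₀ (by linarith) (by norm_num)]; linarith
    · rw [mul_one_div, le_div_iff₀ (by linarith)]; linarith
  · simp only [ra, rb, show ¬ ((-1 : ℤ) = 1) by norm_num, if_false]
    refine ⟨by norm_num, le_rfl, by linarith, by linarith, by linarith⟩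

theorem WLT_core (hWRZ : WRZ_stmt) (hWKL : WKL_stmt) (C : ℝ) (hC : 0 < C)
    (hWBC : ∀ (n₁ : ℕ) (τ τ' θ : ℝ), 1 ≤ n₁ → 0 ≤ τ → τ ≤ τ' → 0 < θ → θ ≤ 1 / 8 → τ' - τ ≤ θ * n₁ →
      ∀ B : Finset ℤ, (∀ n ∈ B, (n₁ : ℤ) < n ∧ n ≤ 4 * (n₁ : ℤ) ∧ (1 / 2 : ℝ) < τ' / (n : ℝ) ∧
        ¬ ∃ k : ℕ, (k : ℝ) + θ ≤ τ / (n : ℝ) ∧ τ' / (n : ℝ) ≤ (k : ℝ) + 1 - θ) → (B.card : ℝ) ≤ C * (θ * n₁ + τ' / n₁ + 1))
    (X : ℝ) (hX : 100 ≤ X) (hX' : 60 + 72 * C ≤ X)
    (M M' q : ℕ) (c : ℤ × ℤ) (sg : ℤ) (y h t : ℝ) (hsg : sg = 1 ∨ sg = -1)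
    (hq2 : 2 ∣ q) (hq1 : 1 ≤ q) (hqX : (q : ℝ) ≤ X) (hc : c.1 % 2 = 1) (hy : -lep ≤ y) (hh : 0 < h) (hh1 : h ≤ 1) (hyh : y + h ≤ lep)
    (hs0 : 0 ≤ y ∨ y + h ≤ 0) (hMM : M ≤ M') (hMM' : M' ≤ 2 * M)
    (hM : X ^ 400 ≤ M * h ^ 2) (ht : |t| ≤ X ^ 180 / h ^ 2) (ht' : X ^ 4 ≤ |t| * h)
    (hsinh : ∀ u : ℝ, y ≤ u → u ≤ y + h → 1 / X ^ 2 ≤ |Real.sinh u|) :
    ‖WF M M' q c sg y h t‖ ≤ M * h / X := by
  classical
  obtain ⟨ha1, ha8, hb, hba, hb3⟩ := WLT_ab hsg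
  obtain ⟨lo, hi, hlh, hlo, hlohi, hdiff, hhi⟩ := WLT_lohi hy hh.le hyh hs0 hsinh
  have hX0 : 0 < X := by linarith
  have hX1 : 1 ≤ X := by linarith
  have hpi := Real.pi_gt_three
  have hpi4 := Real.pi_le_four
  have hlo0 : 0 < lo := lt_of_lt_of_le (by positivity) hlo
  have ht0 : 0 < |t| := by
    by_contra hcon
    have : |t| * h ≤ 0 := mul_nonpos_of_nonpos_of_nonneg (not_lt.1 hcon) hh.le
    have h2 : 0 < X ^ 4 := by positivity
    linarith
  have hqr : (1 : ℝ) ≤ q := by exact_mod_cast hq1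
  have hpib : 1 ≤ Real.pi * rb sg := by nlinarith
  have hMr : (0 : ℝ) ≤ M := Nat.cast_nonneg _
  -- sizes
  set s : ℝ := √(M : ℝ) with hs
  have hss : s * s = M := Real.mul_self_sqrt hMr
  have hs0' : 0 ≤ s := Real.sqrt_nonneg _
  have hsh : X ^ 200 ≤ s * h := by
    refine le_of_sq_le_sq ?_ (by positivity)
    calc (X ^ 200) ^ 2 = X ^ 400 := by ring
      _ ≤ M * h ^ 2 := hM
      _ = (s * h) ^ 2 := by rw [mul_pow, sq s, hss]
  have hX200 : X ≤ X ^ 200 := le_self_pow₀ hX1 (by norm_num)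
  have hsX : X ^ 200 ≤ s := hsh.trans (mul_le_of_le_one_right hs0' hh1)
  have hs100 : 100 ≤ s := by linarith
  set r : ℝ := √(M / ra sg) with hr
  have hrr : r * r = M / ra sg := Real.mul_self_sqrt (div_nonneg hMr (by linarith))
  have hr0 : 0 ≤ r := Real.sqrt_nonneg _
  have hrM : ra sg * (r * r) = M := by rw [hrr]; field_simp
  have hrs : r ≤ s := Real.sqrt_le_sqrt (div_le_self hMr ha1)
  have hs3r : s ≤ 3 * r := by
    refine le_of_sq_le_sq ?_ (by linarith)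
    nlinarith [mul_nonneg hr0 hr0]
  set n₁ : ℕ := ⌊r⌋₊ with hn₁
  have hn1r : (n₁ : ℝ) ≤ r := Nat.floor_le hr0
  have hn1r' : r < n₁ + 1 := Nat.lt_floor_add_one r
  have hn1s : s / 4 ≤ n₁ := by linarith
  have hn1s' : (n₁ : ℝ) ≤ s := hn1r.trans hrs
  have hn11 : 1 ≤ n₁ := by
    have : (1 : ℝ) ≤ n₁ := by linarith
    exact_mod_cast this
  have hn1pos : (0 : ℝ) < n₁ := by linarith
  -- the rows
  obtain ⟨hW1, hW2⟩ := hWRZ M M' q c sg y h hsg hy hh.le hyh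
  have hW1 := hW1 t hq2 hq1 hc
  set S : ℤ → ℂ := fun n => ∑ m ∈ RowS M M' q c sg y h n, nit t (nn (pz sg n m)) with hS
  have hrow : ∀ n : ℤ, 1 ≤ n → (RowS M M' q c sg y h n).Nonempty → (n₁ : ℤ) < n ∧ n ≤ 4 * (n₁ : ℤ) := by
    intro n hn hne
    obtain ⟨-, h2, -⟩ := hW2 n hn
    obtain ⟨h3, h4⟩ := h2 hne
    have hn' : (1 : ℝ) ≤ n := by exact_mod_cast hn
    have hMM2 : (M' : ℝ) ≤ 2 * M := by exact_mod_cast hMM'
    constructor
    · have h5 : r < n := by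
        refine lt_of_pow_lt_pow_left₀ 2 (by linarith) ?_
        have : ra sg * (r * r) < ra sg * (n : ℝ) ^ 2 := by rw [hrM]; exact h3
        have := lt_of_mul_lt_mul_left this (by linarith)
        linarith [sq r]
      have h6 : (n₁ : ℝ) < n := lt_of_le_of_lt hn1r h5
      exact_mod_cast h6
    · have h5 : (n : ℝ) ≤ 2 * r := by
        refine le_of_sq_le_sq ?_ (by linarith)
        have : ra sg * (n : ℝ) ^ 2 ≤ ra sg * (4 * (r * r)) := by
          calc ra sg * (n : ℝ) ^ 2 ≤ 2 * M' := h4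
            _ ≤ 4 * M := by linarith
            _ = ra sg * (4 * (r * r)) := by rw [← hrM]; ring
        have := le_of_mul_le_mul_left this (by linarith)
        nlinarith
      have h6 : (n : ℝ) < 2 * n₁ + 2 := by linarith
      have h7 : n < 2 * (n₁ : ℤ) + 2 := by exact_mod_cast h6
      omega
  have hWFle : ‖WF M M' q c sg y h t‖ ≤ ∑ n ∈ Ioc (n₁ : ℤ) (4 * (n₁ : ℤ)), ‖S n‖ := by
    rw [hW1]
    calc ‖∑ n ∈ Icc (1 : ℤ) (2 * M'), S n‖ ≤ ∑ n ∈ Icc (1 : ℤ) (2 * M'), ‖S n‖ := norm_sum_le _ _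
      _ = ∑ n ∈ (Icc (1 : ℤ) (2 * M')).filter (fun n => n ∈ Ioc (n₁ : ℤ) (4 * (n₁ : ℤ))), ‖S n‖ := by
          symm
          refine sum_filter_of_ne fun n hn hne => ?_
          rw [mem_Icc] at hn
          rw [mem_Ioc]
          refine hrow n hn.1 ?_
          rw [nonempty_iff_ne_empty]
          intro hemp
          apply hne
          rw [hS]
          simp only [hemp, sum_empty, norm_zero]
      _ ≤ ∑ n ∈ Ioc (n₁ : ℤ) (4 * (n₁ : ℤ)), ‖S n‖ := by
          refine sum_le_sum_of_subset_of_nonneg ?_ fun n _ _ => norm_nonneg _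
          intro n hn
          exact (mem_filter.1 hn).2
  -- parameters
  set D : ℝ := q * |t| / (2 * Real.pi * rb sg) with hD
  have h2pib : 0 < 2 * Real.pi * rb sg := by positivity
  have hD0 : 0 < D := by positivity
  have hDle : D ≤ q * |t| / 2 := by
    rw [hD]
    refine div_le_div_of_nonneg_left (by positivity) (by norm_num) ?_
    nlinarith
  set τ : ℝ := D * lo with hτ
  set τ' : ℝ := D * hi with hτ'
  have hτ0 : 0 < τ := mul_pos hD0 hlo0
  have hττ : τ ≤ τ' := mul_le_mul_of_nonneg_left hlohi hD0.le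
  set θ : ℝ := 1 / X ^ 10 with hθ
  have hθ0 : 0 < θ := by positivity
  have hθ8 : θ ≤ 1 / 8 := by
    rw [hθ]
    refine one_div_le_one_div_of_le (by norm_num) ?_
    have := le_self_pow₀ hX1 (show (10 : ℕ) ≠ 0 by norm_num)
    linarith
  have hinvh : 1 / h ≤ s / X ^ 200 := by
    rw [div_le_div_iff₀ hh (by positivity)]
    linarith
  have htD : |t| * h ≤ X ^ 180 / h := by
    calc |t| * h ≤ X ^ 180 / h ^ 2 * h := mul_le_mul_of_nonneg_right ht hh.le
      _ = X ^ 180 / h := by field_simp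
  have hτdiff : τ' - τ ≤ θ * n₁ := by
    calc τ' - τ = D * (hi - lo) := by rw [hτ, hτ']; ring
      _ ≤ (q * |t| / 2) * (3 * h) := mul_le_mul hDle hdiff (by linarith) (by positivity)
      _ = 3 / 2 * (q * (|t| * h)) := by ring
      _ ≤ 3 / 2 * (X * (X ^ 180 / h)) := by
          have := mul_le_mul hqX htD (by positivity) hX0.le
          linarith
      _ = 3 / 2 * X ^ 181 * (1 / h) := by ring
      _ ≤ 3 / 2 * X ^ 181 * (s / X ^ 200) := mul_le_mul_of_nonneg_left hinvh (by positivity)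
      _ = 3 / 2 * s / X ^ 19 := by field_simp
      _ ≤ 1 / X ^ 10 * (s / 4) := by
          have e : 1 / X ^ 10 * (s / 4) = s / (4 * X ^ 10) := by field_simp
          rw [e, div_le_div_iff₀ (by positivity) (by positivity)]
          have h9 : (6 : ℝ) ≤ X ^ 9 := by
            have := le_self_pow₀ hX1 (show (9 : ℕ) ≠ 0 by norm_num)
            linarith
          have : X ^ 19 = X ^ 9 * X ^ 10 := by ring
          rw [this]
          have h10 : 0 ≤ s * X ^ 10 := by positivity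
          nlinarith
      _ ≤ θ * n₁ := mul_le_mul_of_nonneg_left hn1s hθ0.le
  set Bad : Finset ℤ := (Ioc (n₁ : ℤ) (4 * (n₁ : ℤ))).filter fun n : ℤ => (1 / 2 : ℝ) < τ' / (n : ℝ) ∧
    ¬ ∃ k : ℕ, (k : ℝ) + θ ≤ τ / (n : ℝ) ∧ τ' / (n : ℝ) ≤ (k : ℝ) + 1 - θ with hBad
  have hBadc : (Bad.card : ℝ) ≤ C * (θ * n₁ + τ' / n₁ + 1) := by
    refine hWBC n₁ τ τ' θ hn11 hτ0.le hττ hθ0 hθ8 hτdiff Bad fun n hn => ?_
    rw [hBad, mem_filter, mem_Ioc] at hn
    exact ⟨hn.1.1, hn.1.2, hn.2.1, hn.2.2⟩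
  have hterm : ∀ n ∈ Ioc (n₁ : ℤ) (4 * (n₁ : ℤ)), ‖S n‖ ≤ 4 * n₁ / τ + X ^ 10 + (if n ∈ Bad then 9 * (s * h) else 0) := by
    intro n hn
    have hn' := mem_Ioc.1 hn
    have hn1 : (n₁ : ℝ) < n := by exact_mod_cast hn'.1
    have hn4 : (n : ℝ) ≤ 4 * n₁ := by exact_mod_cast hn'.2
    have hnpos : (0 : ℝ) < n := by linarith
    have hn1' : 1 ≤ n := by
      have : (0 : ℤ) < n := by exact_mod_cast hnpos
      omega
    have hA0 : 0 ≤ 4 * n₁ / τ := by positivity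
    have hB0 : 0 ≤ X ^ 10 := by positivity
    have e1 : q * |t| * lo / (2 * Real.pi * rb sg * n) = τ / n := by
      rw [hτ, hD]; field_simp
    have e2 : q * |t| * hi / (2 * Real.pi * rb sg * n) = τ' / n := by
      rw [hτ', hD]; field_simp
    by_cases hbad : n ∈ Bad
    · rw [if_pos hbad]
      obtain ⟨-, -, h4⟩ := hW2 n hn1'
      have h5 : ‖S n‖ ≤ (RowS M M' q c sg y h n).card := by
        calc ‖S n‖ ≤ ∑ m ∈ RowS M M' q c sg y h n, ‖nit t (nn (pz sg n m))‖ := norm_sum_le _ _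
          _ = (RowS M M' q c sg y h n).card := by
              rw [sum_congr rfl fun m _ => WLT_nit t _]
              simp
      have h6 : 2 * (n : ℝ) * h + 1 ≤ 9 * (s * h) := by
        have h7 : (n : ℝ) * h ≤ 4 * s * h := mul_le_mul_of_nonneg_right (by linarith) hh.le
        have h8 : 1 ≤ s * h := by linarith
        nlinarith
      linarith
    · rw [if_neg hbad, add_zero]
      have h4 : ¬ ((1 / 2 : ℝ) < τ' / (n : ℝ) ∧ ¬ ∃ k : ℕ, (k : ℝ) + θ ≤ τ / (n : ℝ) ∧ τ' / (n : ℝ) ≤ (k : ℝ) + 1 - θ) := by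
        intro h5
        exact hbad (by rw [hBad, mem_filter]; exact ⟨hn, h5⟩)
      have hmono : τ / n ≤ τ' / n := div_le_div_of_nonneg_right hττ hnpos.le
      by_cases h5 : (1 / 2 : ℝ) < τ' / n
      · have h6 : ∃ k : ℕ, (k : ℝ) + θ ≤ τ / (n : ℝ) ∧ τ' / (n : ℝ) ≤ (k : ℝ) + 1 - θ := by
          by_contra h7
          exact h4 ⟨h5, h7⟩
        obtain ⟨k, hk1, hk2⟩ := h6
        have h7 := hWKL M M' q c sg y h t θ lo hi n k hsg hq1 hn1' hy hh.le hyh hs0 hlh hθ0 (by linarith)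
          (by rw [e1]; exact hk1) (by rw [e2]; exact hk2)
        have h8 : (1 : ℝ) / θ = X ^ 10 := by rw [hθ]; field_simp
        rw [h8] at h7
        have : ‖S n‖ ≤ X ^ 10 := h7
        linarith
      · rw [not_lt] at h5
        have hθ' : 0 < τ / n := div_pos hτ0 hnpos
        have h7 := hWKL M M' q c sg y h t (τ / n) lo hi n 0 hsg hq1 hn1' hy hh.le hyh hs0 hlh hθ' (by linarith)
          (by rw [e1]; push_cast; linarith) (by rw [e2]; push_cast; linarith)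
        have h8 : (1 : ℝ) / (τ / n) ≤ 4 * n₁ / τ := by
          rw [one_div_div]
          exact div_le_div_of_nonneg_right hn4 hτ0.le
        have : ‖S n‖ ≤ 1 / (τ / n) := h7
        linarith
  have hcardI : ((Ioc (n₁ : ℤ) (4 * (n₁ : ℤ))).card : ℝ) = 3 * n₁ := by
    rw [Int.card_Ioc]
    have : (4 * (n₁ : ℤ) - n₁).toNat = 3 * n₁ := by omega
    rw [this]
    push_cast
    ring
  have hsum : ∑ n ∈ Ioc (n₁ : ℤ) (4 * (n₁ : ℤ)), ‖S n‖ ≤ 3 * n₁ * (4 * n₁ / τ + X ^ 10) + Bad.card * (9 * (s * h)) := by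
    calc ∑ n ∈ Ioc (n₁ : ℤ) (4 * (n₁ : ℤ)), ‖S n‖
        ≤ ∑ n ∈ Ioc (n₁ : ℤ) (4 * (n₁ : ℤ)), (4 * n₁ / τ + X ^ 10 + (if n ∈ Bad then 9 * (s * h) else 0)) := sum_le_sum hterm
      _ = 3 * n₁ * (4 * n₁ / τ + X ^ 10) + Bad.card * (9 * (s * h)) := by
          rw [sum_add_distrib, sum_const, nsmul_eq_mul, hcardI, ← sum_filter, sum_const, nsmul_eq_mul]
          have : (Ioc (n₁ : ℤ) (4 * (n₁ : ℤ))).filter (fun n => n ∈ Bad) = Bad := by
            ext n
            rw [mem_filter]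
            constructor
            · exact fun h => h.2
            · intro h
              exact ⟨(mem_filter.1 (hBad ▸ h)).1, h⟩
          rw [this]
  -- the final estimates
  have hMh : 0 ≤ M * h := by positivity
  have hA : 3 * n₁ * (4 * n₁ / τ) ≤ 48 * (M * h / X ^ 2) := by
    have h1 : 1 / τ = 2 * Real.pi * rb sg / (q * |t| * lo) := by
      rw [hτ, hD]; field_simp
    have h2 : (n₁ : ℝ) * n₁ ≤ M / ra sg := by
      rw [← hrr]; exact mul_le_mul hn1r hn1r (by positivity) hr0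
    have h3 : X ^ 2 ≤ h * (q * |t| * lo) := by
      calc X ^ 2 = X ^ 4 * (1 / X ^ 2) := by field_simp
        _ ≤ (|t| * h) * lo := mul_le_mul ht' hlo (by positivity) (by positivity)
        _ = 1 * (h * |t| * lo) := by ring
        _ ≤ q * (h * |t| * lo) := mul_le_mul_of_nonneg_right hqr (by positivity)
        _ = h * (q * |t| * lo) := by ring
    have h4 : 1 / (q * |t| * lo) ≤ h / X ^ 2 := by
      rw [div_le_div_iff₀ (by positivity) (by positivity)]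
      linarith
    calc 3 * n₁ * (4 * n₁ / τ) = 12 * (n₁ * n₁) * (1 / τ) := by ring
      _ ≤ 12 * (M / ra sg) * (1 / τ) := by
          refine mul_le_mul_of_nonneg_right ?_ (by positivity)
          linarith
      _ = 12 * M * (2 * Real.pi * rb sg / ra sg) * (1 / (q * |t| * lo)) := by rw [h1]; ring
      _ ≤ 12 * M * 4 * (h / X ^ 2) := by
          refine mul_le_mul ?_ h4 (by positivity) (by positivity)
          refine mul_le_mul_of_nonneg_left ?_ (by positivity)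
          rw [div_le_iff₀ (by linarith)]
          nlinarith
      _ = 48 * (M * h / X ^ 2) := by ring
  have hsMh : s ≤ M * h / X ^ 200 := by
    rw [le_div_iff₀ (by positivity)]
    calc s * X ^ 200 ≤ s * (s * h) := mul_le_mul_of_nonneg_left hsh hs0'
      _ = M * h := by rw [← mul_assoc, hss]
  have hB : 3 * n₁ * X ^ 10 ≤ 3 * (M * h / X ^ 2) := by
    calc 3 * n₁ * X ^ 10 ≤ 3 * (M * h / X ^ 200) * X ^ 10 := by
          refine mul_le_mul_of_nonneg_right ?_ (by positivity)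
          linarith
      _ = 3 * (M * h / X ^ 190) := by field_simp
      _ ≤ 3 * (M * h / X ^ 2) := by
          refine mul_le_mul_of_nonneg_left ?_ (by norm_num)
          exact div_le_div_of_nonneg_left hMh (by positivity) (pow_le_pow_right₀ hX1 (by norm_num))
  have hCc : Bad.card * (9 * (s * h)) ≤ 72 * C * (M * h / X ^ 2) := by
    have h1 : θ * n₁ * (9 * (s * h)) ≤ 9 * (M * h / X ^ 2) := by
      calc θ * n₁ * (9 * (s * h)) ≤ θ * s * (9 * (s * h)) := by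
            refine mul_le_mul_of_nonneg_right ?_ (by positivity)
            exact mul_le_mul_of_nonneg_left hn1s' hθ0.le
        _ = 9 * (s * s * h / X ^ 10) := by rw [hθ]; ring
        _ = 9 * (M * h / X ^ 10) := by rw [hss]
        _ ≤ 9 * (M * h / X ^ 2) := by
            refine mul_le_mul_of_nonneg_left ?_ (by norm_num)
            exact div_le_div_of_nonneg_left hMh (by positivity) (pow_le_pow_right₀ hX1 (by norm_num))
    have h2 : τ' / n₁ * (9 * (s * h)) ≤ 54 * (M * h / X ^ 2) := by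
      have h3 : τ' ≤ 3 / 2 * (X ^ 181 / h ^ 2) := by
        calc τ' ≤ (q * |t| / 2) * 3 := mul_le_mul hDle hhi (by linarith) (by positivity)
          _ = 3 / 2 * (q * |t|) := by ring
          _ ≤ 3 / 2 * (X * (X ^ 180 / h ^ 2)) := by
              have := mul_le_mul hqX ht (abs_nonneg t) hX0.le
              linarith
          _ = 3 / 2 * (X ^ 181 / h ^ 2) := by ring
      have h4 : s / n₁ ≤ 4 := by
        rw [div_le_iff₀ hn1pos]; linarith
      calc τ' / n₁ * (9 * (s * h)) = τ' * (s / n₁) * (9 * h) := by ring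
        _ ≤ (3 / 2 * (X ^ 181 / h ^ 2)) * 4 * (9 * h) := by
            refine mul_le_mul_of_nonneg_right ?_ (by positivity)
            exact mul_le_mul h3 h4 (by positivity) (by positivity)
        _ = 54 * (X ^ 181 / h) := by field_simp; ring
        _ ≤ 54 * (M * h / X ^ 2) := by
            refine mul_le_mul_of_nonneg_left ?_ (by norm_num)
            rw [div_le_div_iff₀ hh (by positivity)]
            calc X ^ 181 * X ^ 2 = X ^ 183 := by ring
              _ ≤ X ^ 400 := pow_le_pow_right₀ hX1 (by norm_num)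
              _ ≤ M * h ^ 2 := hM
              _ = M * h * h := by ring
    have h3 : 1 * (9 * (s * h)) ≤ 9 * (M * h / X ^ 2) := by
      calc 1 * (9 * (s * h)) ≤ 9 * s := by
            have := mul_le_of_le_one_right hs0' hh1
            linarith
        _ ≤ 9 * (M * h / X ^ 200) := by linarith
        _ ≤ 9 * (M * h / X ^ 2) := by
            refine mul_le_mul_of_nonneg_left ?_ (by norm_num)
            exact div_le_div_of_nonneg_left hMh (by positivity) (pow_le_pow_right₀ hX1 (by norm_num))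
    calc Bad.card * (9 * (s * h)) ≤ C * (θ * n₁ + τ' / n₁ + 1) * (9 * (s * h)) :=
          mul_le_mul_of_nonneg_right hBadc (by positivity)
      _ = C * (θ * n₁ * (9 * (s * h)) + τ' / n₁ * (9 * (s * h)) + 1 * (9 * (s * h))) := by ring
      _ ≤ C * (9 * (M * h / X ^ 2) + 54 * (M * h / X ^ 2) + 9 * (M * h / X ^ 2)) := by
          refine mul_le_mul_of_nonneg_left ?_ hC.le
          linarith
      _ = 72 * C * (M * h / X ^ 2) := by ring
  calc ‖WF M M' q c sg y h t‖ ≤ 3 * n₁ * (4 * n₁ / τ + X ^ 10) + Bad.card * (9 * (s * h)) := hWFle.trans hsum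
    _ = 3 * n₁ * (4 * n₁ / τ) + 3 * n₁ * X ^ 10 + Bad.card * (9 * (s * h)) := by ring
    _ ≤ 48 * (M * h / X ^ 2) + 3 * (M * h / X ^ 2) + 72 * C * (M * h / X ^ 2) := add_le_add (add_le_add hA hB) hCc
    _ = (51 + 72 * C) * (M * h / X ^ 2) := by ring
    _ ≤ X * (M * h / X ^ 2) := by
        refine mul_le_mul_of_nonneg_right (by linarith) (by positivity)
    _ = M * h / X := by field_simp

theorem WLT (hWRZ : WRZ_stmt) (hWKL : WKL_stmt) (hWBC : WBC_stmt) : WLT_stmt := by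
  classical
  obtain ⟨C, hC, hW⟩ := hWBC
  intro η hη hη1
  obtain ⟨x₀, hx₀⟩ : ∃ x₀ : ℕ, ∀ x : ℕ, x₀ ≤ x → 160 + 72 * C ≤ (x : ℝ) ^ (η / 400) := by
    have h1 : Filter.Tendsto (fun x : ℕ => (x : ℝ) ^ (η / 400)) Filter.atTop Filter.atTop :=
      (tendsto_rpow_atTop (by positivity)).comp tendsto_natCast_atTop_atTop
    exact Filter.eventually_atTop.1 (h1.eventually_ge_atTop (160 + 72 * C))
  refine ⟨max x₀ 1, ?_⟩
  intro x hx M M' q c sg y h t hsg hq2 hq1 hqx hc hy hh hh1 hyh hs0 hMM hMM' hM ht ht' hsinh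
  have hx1 : 1 ≤ x := (le_max_right _ _).trans hx
  have hxr : (0 : ℝ) ≤ x := Nat.cast_nonneg _
  have hxpos : (0 : ℝ) < x := by exact_mod_cast hx1
  have hX := hx₀ x ((le_max_left _ _).trans hx)
  set X : ℝ := (x : ℝ) ^ (η / 400) with hXdef
  have hXpos : 0 < X := Real.rpow_pos_of_pos hxpos _
  have hpow : ∀ k : ℕ, (x : ℝ) ^ (η / 400 * k) = X ^ k := by
    intro k
    rw [hXdef, Real.rpow_mul hxr, Real.rpow_natCast]
  have h1 : (x : ℝ) ^ η = X ^ 400 := by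
    rw [← hpow]; congr 1; push_cast; ring
  have h2 : (x : ℝ) ^ (9 * η / 20) = X ^ 180 := by
    rw [← hpow]; congr 1; push_cast; ring
  have h3 : (x : ℝ) ^ (η / 100) = X ^ 4 := by
    rw [← hpow]; congr 1; push_cast; ring
  have h4 : (x : ℝ) ^ (-(η / 200)) = 1 / X ^ 2 := by
    rw [Real.rpow_neg hxr, ← hpow, one_div]
    congr 2; push_cast; ring
  have h5 : (x : ℝ) ^ (-(η / 400)) = 1 / X := by
    rw [Real.rpow_neg hxr, one_div]
  rw [h1] at hM
  rw [h2] at ht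
  rw [h3] at ht'
  have h6 := WLT_core hWRZ hWKL C hC (by
    intro n₁ τ τ' θ a1 a2 a3 a4 a5 a6 B hB
    refine le_trans ?_ (hW n₁ τ τ' θ a1 a2 a3 a4 a5 a6)
    have : B ⊆ ((Ioc (n₁ : ℤ) (4 * (n₁ : ℤ))).filter fun n : ℤ => (1 / 2 : ℝ) < τ' / (n : ℝ) ∧ ¬ ∃ k : ℕ, (k : ℝ) + θ ≤ τ / (n : ℝ) ∧ τ' / (n : ℝ) ≤ (k : ℝ) + 1 - θ) := by
      intro n hn
      obtain ⟨b1, b2, b3, b4⟩ := hB n hn
      exact mem_filter.2 ⟨mem_Ioc.2 ⟨b1, b2⟩, b3, b4⟩
    refine le_trans (Nat.cast_le.2 (card_le_card this)) (le_of_eq ?_)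
    congr 2) X (by linarith) (by linarith) M M' q c sg y h t hsg hq2 hq1 hqx hc hy hh hh1 hyh hs0 hMM hMM' hM ht ht' (by
      intro u hu1 hu2
      rw [← h4]
      exact hsinh u hu1 hu2)
  rw [h5]
  calc ‖WF M M' q c sg y h t‖ ≤ M * h / X := h6
    _ = M * h * (1 / X) := by ring

end Pool.Agent.EU
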